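import Pool.Agent.H746R4.Tau.Roots

/-!
# Factorizations of generalized Vandermonde matrices and real roots

If the matrix `(X b ^ e w)` (distinct positive reals `X b`, distinct exponents `e w`) is a product
`U V` of two matrices, then there is a sum of products `∑ z, F z * G z` in which `F z` has as many
monomials as the `z`-th row of `V` has nonzero entries, `G z` has as many monomials as the `z`-th
column of `U` has nonzero entries, and which has at least `|ι| * (|W| - 1)` distinct real roots.
-/

set_option autoImplicit false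

namespace Pool.Agent.H73.SOS

open Polynomial Finset Filter Topology

lemma card_support_sum_le {κ : Type*} (S : Finset κ) (c : κ → ℝ) (e : κ → ℕ) :
    (∑ i ∈ S, C (c i) * X ^ e i : ℝ[X]).support.card ≤ S.card := by
  classical
  have h1 : (∑ i ∈ S, C (c i) * X ^ e i : ℝ[X]).support ⊆ S.image e := by
    intro n hn
    by_contra hcon
    apply mem_support_iff.mp hn
    rw [finsetSum_coeff]
    apply Finset.sum_eq_zero
    intro i hi
    rw [coeff_C_mul, coeff_X_pow, if_neg, mul_zero]
    intro h
    exact hcon (h ▸ Finset.mem_image_of_mem e hi)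
  exact (Finset.card_le_card h1).trans Finset.card_image_le

theorem circuit {ι W Z : Type*} [Fintype ι] [DecidableEq ι] [Fintype W] [DecidableEq W] [Fintype Z]
    (T : ι → ℝ) (hT0 : ∀ b, 0 < T b) (hT : Function.Injective T)
    (e : W → ℕ) (he : Function.Injective e) (m : ℕ) (hm : Fintype.card W = m + 1)
    (U : ι → Z → ℝ) (V : Z → W → ℝ) (hUV : ∀ b w, ∑ z, U b z * V z w = T b ^ e w) :
    ∃ F G : Z → ℝ[X], (∀ z, (F z).support.card ≤ Fintype.card W) ∧
      (∀ z, (G z).support.card ≤ (univ.filter fun b => U b z ≠ 0).card) ∧
      Fintype.card ι * m ≤ (∑ z, F z * G z).roots.toFinset.card := by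
  classical
  obtain ⟨κ, α, n, hroots⟩ := Pool.Agent.H746R4.Tau.exists_dilations T hT0 hT e he m hm
  refine ⟨fun z => ∑ w, C (κ w * V z w) * X ^ e w,
    fun z => ∑ b ∈ univ.filter (fun b => U b z ≠ 0), C (α b * U b z) * X ^ n b, ?_, ?_, ?_⟩
  · intro z
    refine (card_support_sum_le _ _ _).trans ?_
    simp
  · intro z
    exact card_support_sum_le _ _ _
  · have key : (∑ z, (∑ w, C (κ w * V z w) * X ^ e w) *
        (∑ b ∈ univ.filter (fun b => U b z ≠ 0), C (α b * U b z) * X ^ n b) : ℝ[X]) =
        ∑ b, C (α b) * X ^ n b * ∑ w, C (κ w * T b ^ e w) * X ^ e w := by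
      have h1 : ∀ z, (∑ b ∈ univ.filter (fun b => U b z ≠ 0), C (α b * U b z) * X ^ n b : ℝ[X]) =
          ∑ b, C (α b * U b z) * X ^ n b := by
        intro z
        apply Finset.sum_filter_of_ne
        intro b _ hb h0
        apply hb
        rw [h0, mul_zero, C_0, zero_mul]
      simp only [h1]
      have h2 : ∀ z, (∑ w, C (κ w * V z w) * X ^ e w) * (∑ b, C (α b * U b z) * X ^ n b) =
          ∑ b, ∑ w, C (α b) * X ^ n b * (C (κ w) * X ^ e w) * C (U b z * V z w) := by
        intro z
        rw [Finset.sum_mul_sum, Finset.sum_comm]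
        apply Finset.sum_congr rfl
        intro b _
        apply Finset.sum_congr rfl
        intro w _
        simp only [C_mul]
        ring
      rw [Finset.sum_congr rfl fun z _ => h2 z, Finset.sum_comm]
      apply Finset.sum_congr rfl
      intro b _
      rw [Finset.sum_comm, Finset.mul_sum]
      apply Finset.sum_congr rfl
      intro w _
      rw [← Finset.mul_sum, ← map_sum, hUV b w]
      simp only [C_mul]
      ring
    rw [key]
    exact hroots

end Pool.Agent.H73.SOS
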