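import Pool.Agent.H73.SOS.Lines

/-!
# The family of sums of products
-/

set_option autoImplicit false

namespace Pool.Agent.H73.SOS

open Polynomial Finset

lemma line_natDegree (a a' : ℕ) : (line a a').natDegree ≤ 1 := by
  unfold line
  compute_degree

lemma line_eval_nat (a a' l : ℕ) : (line a a').eval (l : ℝ) = ((a + 1 + a' * l : ℕ) : ℝ) := by
  rw [line_eval]
  push_cast
  ring

/-- Lagrange interpolation at the nodes `0, …, d - 1`. -/
lemma interp (d : ℕ) (p : ℝ[X]) (hp : p.degree < (d : WithBot ℕ)) (x : ℝ) :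
    p.eval x = ∑ l : Fin d,
      (Lagrange.basis Finset.univ (fun l : Fin d => ((l : ℕ) : ℝ)) l).eval x *
        p.eval ((l : ℕ) : ℝ) := by
  set v : Fin d → ℝ := fun l => ((l : ℕ) : ℝ) with hv
  have hvs : Set.InjOn v ((Finset.univ : Finset (Fin d)) : Set (Fin d)) := by
    intro a _ c _ hac
    have : ((a : ℕ) : ℝ) = ((c : ℕ) : ℝ) := hac
    exact Fin.ext (by exact_mod_cast this)
  have hdeg : p.degree < (Finset.univ : Finset (Fin d)).card := by
    rw [Finset.card_univ, Fintype.card_fin]
    exact hp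
  have h1 := Lagrange.eq_interpolate hvs hdeg
  conv_lhs => rw [h1]
  rw [Lagrange.interpolate_apply, eval_finsetSum]
  apply Finset.sum_congr rfl
  intro l _
  rw [eval_mul, eval_C]
  simp only [hv]
  ring

theorem family₄ (N J A A' d Y : ℕ) (hN : 1 ≤ N) (hJ : 1 ≤ J) (hd : N + J ≤ d + 1)
    (hY : ∀ a < A, ∀ a' < A', ∀ l < d, a + 1 + a' * l < Y) :
    ∃ F G : Fin d × Fin Y → ℝ[X], (∀ z, (F z).support.card ≤ N * J) ∧
      (∀ z, (G z).support.card ≤ A' * N) ∧
      A * A' * N * (N * J - 1) ≤ (∑ z, F z * G z).roots.toFinset.card := by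
  classical
  obtain ⟨R, T, hR, hT0, hT, hT4⟩ := exists_targets N A A'
  have hNJ : 1 ≤ N * J := Nat.mul_pos hN hJ
  have hdig : ∀ w : Fin (N * J), ∃ G : Fin J → ℝ[X], (∀ j, (G j).degree < (N : WithBot ℕ)) ∧
      (X : ℝ[X]) ^ (w : ℕ) = ∑ j, G j * Phi N ^ (j : ℕ) := by
    intro w
    apply digits (Phi N) (Phi_monic N) N (Phi_natDegree N) J
    rw [degree_X_pow]
    exact_mod_cast w.2
  choose D hD1 hD2 using hdig
  let L : Fin d → ℝ[X] := fun l =>
    Lagrange.basis Finset.univ (fun l : Fin d => ((l : ℕ) : ℝ)) l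
  let val : (Fin A × Fin A') × Fin N → Fin d → ℕ := fun p l =>
    (p.1.1 : ℕ) + 1 + (p.1.2 : ℕ) * (l : ℕ)
  have hval : ∀ p l, val p l < Y := fun p l => hY _ p.1.1.2 _ p.1.2.2 _ l.2
  let U : (Fin A × Fin A') × Fin N → Fin d × Fin Y → ℝ := fun p z =>
    if val p z.1 = (z.2 : ℕ) then (L z.1).eval (T p) else 0
  let V : Fin d × Fin Y → Fin (N * J) → ℝ := fun z w =>
    ∑ j, (D w j).eval ((z.1 : ℕ) : ℝ) * (((z.2 : ℕ) : ℝ) / R) ^ (j : ℕ)
  have hUV : ∀ p w, ∑ z, U p z * V z w = T p ^ (w : ℕ) := by
    intro p w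
    rw [Fintype.sum_prod_type]
    have h1 : ∀ l : Fin d, ∑ y : Fin Y, U p (l, y) * V (l, y) w =
        (L l).eval (T p) * ∑ j, (D w j).eval ((l : ℕ) : ℝ) * ((val p l : ℝ) / R) ^ (j : ℕ) := by
      intro l
      rw [Finset.sum_eq_single ⟨val p l, hval p l⟩]
      · simp [U, V]
      · intro y _ hy
        have h2 : val p l ≠ (y : ℕ) := fun h => hy (Fin.ext h.symm)
        simp only [U, if_neg h2, zero_mul]
      · intro h
        exact absurd (Finset.mem_univ _) h
    rw [Finset.sum_congr rfl fun l _ => h1 l]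
    set P : ℝ[X] := ∑ j, D w j * (C (1 / R) * line p.1.1 p.1.2) ^ (j : ℕ) with hP
    have hPe : ∀ x, P.eval x = ∑ j, (D w j).eval x * ((line p.1.1 p.1.2).eval x / R) ^ (j : ℕ) := by
      intro x
      rw [hP, eval_finsetSum]
      apply Finset.sum_congr rfl
      intro j _
      rw [eval_mul, eval_pow, eval_mul, eval_C]
      congr 2
      ring
    have hPdeg : P.degree < (d : WithBot ℕ) := by
      rw [hP, ← mem_degreeLT]
      apply Submodule.sum_mem
      intro j _
      rw [mem_degreeLT]
      by_cases h0 : D w j = 0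
      · rw [h0, zero_mul, degree_zero]
        exact WithBot.bot_lt_coe d
      · have h2 := hD1 w j
        rw [degree_eq_natDegree h0] at h2
        have h3 : (D w j).natDegree < N := by exact_mod_cast h2
        refine lt_of_le_of_lt degree_le_natDegree ?_
        have h4 : (D w j * (C (1 / R) * line p.1.1 p.1.2) ^ (j : ℕ)).natDegree ≤
            (D w j).natDegree + (j : ℕ) * 1 := by
          refine natDegree_mul_le.trans (Nat.add_le_add_left ?_ _)
          refine natDegree_pow_le.trans (Nat.mul_le_mul_left _ ?_)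
          exact (natDegree_C_mul_le _ _).trans (line_natDegree _ _)
        have h5 : (j : ℕ) < J := j.2
        have h6 : (D w j * (C (1 / R) * line p.1.1 p.1.2) ^ (j : ℕ)).natDegree < d := by omega
        exact_mod_cast h6
    have h7 := interp d P hPdeg (T p)
    have h8 : P.eval (T p) = T p ^ (w : ℕ) := by
      rw [hPe]
      have h9 := congrArg (fun q => q.eval (T p)) (hD2 w)
      simp only [eval_pow, eval_X, eval_finsetSum, eval_mul] at h9
      rw [h9]
      apply Finset.sum_congr rfl
      intro j _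
      congr 2
      rw [← hT4 p]
      field_simp
    rw [← h8, h7]
    apply Finset.sum_congr rfl
    intro l _
    rw [hPe]
    congr 1
    apply Finset.sum_congr rfl
    intro j _
    congr 2
    rw [line_eval_nat]
  obtain ⟨F, G, h1, h2, h3⟩ := circuit T hT0 hT (fun w : Fin (N * J) => (w : ℕ))
    Fin.val_injective (N * J - 1) (by rw [Fintype.card_fin]; omega) U V hUV
  refine ⟨F, G, ?_, ?_, ?_⟩
  · intro z
    simpa using h1 z
  · intro z
    refine (h2 z).trans ?_
    have h4 : (univ.filter fun p : (Fin A × Fin A') × Fin N => U p z ≠ 0).card ≤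
        (univ : Finset (Fin A' × Fin N)).card := by
      apply Finset.card_le_card_of_injOn (fun p => (p.1.2, p.2))
      · intro p _
        simp
      · intro p hp q hq hpq
        simp only [Finset.coe_filter, Finset.mem_univ, true_and, Set.mem_ofPred_eq] at hp hq
        have hp' : val p z.1 = (z.2 : ℕ) := by
          by_contra hcon
          apply hp
          simp only [U, if_neg hcon]
        have hq' : val q z.1 = (z.2 : ℕ) := by
          by_contra hcon
          apply hq
          simp only [U, if_neg hcon]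
        simp only [Prod.mk.injEq] at hpq
        have h5 : val p z.1 = val q z.1 := by rw [hp', hq']
        simp only [val] at h5
        rw [hpq.1] at h5
        have h6 : (p.1.1 : ℕ) = (q.1.1 : ℕ) := by omega
        exact Prod.ext (Prod.ext (Fin.ext h6) hpq.1) hpq.2
    refine h4.trans ?_
    simp
  · refine le_trans (le_of_eq ?_) h3
    simp [mul_assoc]

end Pool.Agent.H73.SOS
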