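import Pool.Agent.H73.SOS.Circuit

/-!
# Lines which meet a curve of high degree in many points
-/

set_option autoImplicit false

namespace Pool.Agent.H73.SOS

open Polynomial Finset Filter Topology

/-- Expansion in base `Φ`. -/
lemma digits (Φ : ℝ[X]) (hΦ : Φ.Monic) (N : ℕ) (hN : Φ.natDegree = N) (J : ℕ) (g : ℝ[X])
    (hg : g.degree < ((N * J : ℕ) : WithBot ℕ)) :
    ∃ G : Fin J → ℝ[X], (∀ j, (G j).degree < (N : WithBot ℕ)) ∧
      g = ∑ j, G j * Φ ^ (j : ℕ) := by
  induction J generalizing g with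
  | zero =>
    refine ⟨fun j => j.elim0, fun j => j.elim0, ?_⟩
    have h0 : g = 0 := by
      rw [mul_zero, Nat.cast_zero, Nat.WithBot.lt_zero_iff] at hg
      exact degree_eq_bot.mp hg
    simp [h0]
  | succ J ih =>
    have hdeg : Φ.degree = (N : WithBot ℕ) := by
      rw [degree_eq_natDegree hΦ.ne_zero, hN]
    have hq : (g /ₘ Φ).degree < ((N * J : ℕ) : WithBot ℕ) := by
      by_cases h0 : g /ₘ Φ = 0
      · rw [h0, degree_zero]
        exact WithBot.bot_lt_coe _
      · have h1 : ¬ degree g < degree Φ := fun h => h0 ((divByMonic_eq_zero_iff hΦ).mpr h)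
        have hg0 : g ≠ 0 := by
          intro h
          rw [h, zero_divByMonic] at h0
          exact h0 rfl
        rw [degree_eq_natDegree h0, natDegree_divByMonic g hΦ, hN]
        rw [degree_eq_natDegree hg0] at hg h1
        rw [hdeg] at h1
        have h2 : g.natDegree < N * (J + 1) := by exact_mod_cast hg
        have h3 : ¬ g.natDegree < N := fun h => h1 (by exact_mod_cast h)
        have h4 : N * (J + 1) = N * J + N := by ring
        have h5 : g.natDegree - N < N * J := by omega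
        exact_mod_cast h5
    obtain ⟨G, h1, h2⟩ := ih (g /ₘ Φ) hq
    refine ⟨Fin.cons (g %ₘ Φ) G, ?_, ?_⟩
    · intro j
      refine Fin.cases ?_ (fun j => ?_) j
      · rw [Fin.cons_zero, ← hdeg]
        exact degree_modByMonic_lt g hΦ
      · rw [Fin.cons_succ]
        exact h1 j
    · rw [Fin.sum_univ_succ]
      simp only [Fin.cons_zero, Fin.cons_succ, Fin.val_zero, pow_zero, mul_one, Fin.val_succ]
      have h3 : ∑ j, G j * Φ ^ ((j : ℕ) + 1) = Φ * (g /ₘ Φ) := by
        conv_rhs => rw [h2]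
        rw [Finset.mul_sum]
        apply Finset.sum_congr rfl
        intro j _
        ring
      rw [h3]
      exact (modByMonic_add_div g Φ).symm

/-- `(x - 1) (x - 2) ⋯ (x - N)` -/
noncomputable def Phi (N : ℕ) : ℝ[X] := ∏ k : Fin N, (X - C (((k : ℕ) : ℝ) + 1))

lemma Phi_monic (N : ℕ) : (Phi N).Monic := monic_prod_of_monic _ _ fun _ _ => monic_X_sub_C _

lemma Phi_natDegree (N : ℕ) : (Phi N).natDegree = N := by
  unfold Phi
  rw [natDegree_prod_of_monic _ _ fun _ _ => monic_X_sub_C _]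
  simp only [natDegree_X_sub_C]
  simp

lemma Phi_eval (N : ℕ) (x : ℝ) : (Phi N).eval x = ∏ k : Fin N, (x - (((k : ℕ) : ℝ) + 1)) := by
  unfold Phi
  rw [eval_prod]
  simp

/-- the half-integer points -/
noncomputable def mid (k : ℕ) : ℝ := (k : ℝ) + 1 / 2

lemma mid_pos (k : ℕ) : 0 < mid k := by unfold mid; positivity

lemma Phi_sign (N : ℕ) (k : Fin N) :
    (Phi N).eval (mid k) * (Phi N).eval (mid ((k : ℕ) + 1)) < 0 := by
  rw [Phi_eval, Phi_eval, ← Finset.prod_mul_distrib, ← Finset.mul_prod_erase univ _ (mem_univ k)]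
  apply mul_neg_of_neg_of_pos
  · unfold mid
    push_cast
    nlinarith
  · apply Finset.prod_pos
    intro j hj
    have hne : (j : ℕ) ≠ (k : ℕ) := fun h => (Finset.mem_erase.mp hj).1 (Fin.ext h)
    have h1 : (1 : ℝ) ≤ (((k : ℕ) : ℝ) - ((j : ℕ) : ℝ)) ^ 2 := by
      have h2 : (((k : ℕ) : ℤ) - ((j : ℕ) : ℤ)) ≠ 0 := by omega
      have h3 : (1 : ℤ) ≤ (((k : ℕ) : ℤ) - ((j : ℕ) : ℤ)) ^ 2 := by
        have := Int.one_le_abs h2
        nlinarith [sq_abs (((k : ℕ) : ℤ) - ((j : ℕ) : ℤ)), abs_nonneg (((k : ℕ) : ℤ) - ((j : ℕ) : ℤ))]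
      exact_mod_cast h3
    unfold mid
    push_cast
    nlinarith

lemma Phi_mid_ne (N : ℕ) (k : ℕ) : (Phi N).eval (mid k) ≠ 0 := by
  rw [Phi_eval, Finset.prod_ne_zero_iff]
  intro j _ h
  unfold mid at h
  have h1 : (2 * (k : ℝ) + 1) = 2 * (((j : ℕ) : ℝ) + 1) := by linarith
  have h2 : 2 * k + 1 = 2 * ((j : ℕ) + 1) := by exact_mod_cast h1
  omega

/-- the lines `y = (a + 1) + a' x` -/
noncomputable def line (a a' : ℕ) : ℝ[X] := C ((a : ℝ) + 1) + C (a' : ℝ) * X

lemma line_eval (a a' : ℕ) (x : ℝ) : (line a a').eval x = (a : ℝ) + 1 + a' * x := by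
  simp [line]

lemma line_pos (a a' : ℕ) (x : ℝ) (hx : 0 < x) : 0 < (line a a').eval x := by
  rw [line_eval]
  positivity

lemma exists_root_between (h : ℝ[X]) {u v : ℝ} (huv : u < v) (hs : h.eval u * h.eval v < 0) :
    ∃ r, u < r ∧ r < v ∧ h.eval r = 0 := by
  have hcont : ContinuousOn (fun x => h.eval x) (Set.Icc u v) := h.continuous.continuousOn
  rcases mul_neg_iff.mp hs with h' | h'
  · have := intermediate_value_Ioo' huv.le hcont
    obtain ⟨r, hr, hr0⟩ := this ⟨h'.2, h'.1⟩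
    exact ⟨r, hr.1, hr.2, hr0⟩
  · have := intermediate_value_Ioo huv.le hcont
    obtain ⟨r, hr, hr0⟩ := this ⟨h'.1, h'.2⟩
    exact ⟨r, hr.1, hr.2, hr0⟩

lemma sign_sub {p q p' q' : ℝ} (h : p * q < 0) (hp : |p'| < |p|) (hq : |q'| < |q|) :
    (p - p') * (q - q') < 0 := by
  rw [abs_lt] at hp hq
  rcases mul_neg_iff.mp h with ⟨h1, h2⟩ | ⟨h1, h2⟩
  · rw [abs_of_pos h1] at hp
    rw [abs_of_neg h2] at hq
    exact mul_neg_of_pos_of_neg (by linarith) (by linarith)
  · rw [abs_of_neg h1] at hp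
    rw [abs_of_pos h2] at hq
    exact mul_neg_of_neg_of_pos (by linarith) (by linarith)

/-- All lines of a finite family meet the curve `y = R Φ(x)` in `N` points with positive abscissae,
and all these abscissae are distinct. -/
theorem exists_targets (N A A' : ℕ) :
    ∃ (R : ℝ) (T : (Fin A × Fin A') × Fin N → ℝ), 0 < R ∧ (∀ p, 0 < T p) ∧
      Function.Injective T ∧ ∀ p, R * (Phi N).eval (T p) = (line p.1.1 p.1.2).eval (T p) := by
  classical
  have hlarge : ∀ (v u : ℝ), v ≠ 0 → ∀ᶠ R : ℝ in atTop, |u| < |R * v| := by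
    intro v u hv
    have h1 : Tendsto (fun R : ℝ => R * |v|) atTop atTop :=
      tendsto_id.atTop_mul_const (abs_pos.mpr hv)
    filter_upwards [h1.eventually_gt_atTop |u|, eventually_gt_atTop 0] with R h2 h3
    rw [abs_mul, abs_of_pos h3]
    exact h2
  let cr : (Fin A × Fin A') → (Fin A × Fin A') → ℝ := fun b c =>
    (((c.1 : ℕ) : ℝ) - ((b.1 : ℕ) : ℝ)) / (((b.2 : ℕ) : ℝ) - ((c.2 : ℕ) : ℝ))
  have e1 : ∀ᶠ R : ℝ in atTop, ∀ (b : Fin A × Fin A') (k : Fin (N + 1)),
      |(line b.1 b.2).eval (mid k)| < |R * (Phi N).eval (mid k)| :=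
    eventually_all.mpr fun b => eventually_all.mpr fun k => hlarge _ _ (Phi_mid_ne N k)
  have e2 : ∀ᶠ R : ℝ in atTop, ∀ (b c : Fin A × Fin A'), (Phi N).eval (cr b c) ≠ 0 →
      |(line b.1 b.2).eval (cr b c)| < |R * (Phi N).eval (cr b c)| := by
    rw [eventually_all]
    intro b
    rw [eventually_all]
    intro c
    by_cases h : (Phi N).eval (cr b c) = 0
    · exact Eventually.of_forall fun R hR => absurd h hR
    · filter_upwards [hlarge _ ((line b.1 b.2).eval (cr b c)) h] with R hR _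
      exact hR
  obtain ⟨R, h1, h2, hR⟩ := (e1.and (e2.and (eventually_gt_atTop 0))).exists
  have hroot : ∀ p : (Fin A × Fin A') × Fin N, ∃ r, mid p.2 < r ∧ r < mid ((p.2 : ℕ) + 1) ∧
      (C R * Phi N - line p.1.1 p.1.2).eval r = 0 := by
    intro p
    apply exists_root_between
    · unfold mid
      push_cast
      linarith
    · simp only [eval_sub, eval_mul, eval_C]
      apply sign_sub
      · have h3 := Phi_sign N p.2
        have h4 : R * (Phi N).eval (mid p.2) * (R * (Phi N).eval (mid ((p.2 : ℕ) + 1))) =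
            R ^ 2 * ((Phi N).eval (mid p.2) * (Phi N).eval (mid ((p.2 : ℕ) + 1))) := by ring
        rw [h4]
        exact mul_neg_of_pos_of_neg (by positivity) h3
      · exact h1 p.1 p.2.castSucc
      · exact h1 p.1 p.2.succ
  choose T hT1 hT2 hT3 using hroot
  have hT0 : ∀ p, 0 < T p := fun p => (mid_pos _).trans (hT1 p)
  have hT4 : ∀ p, R * (Phi N).eval (T p) = (line p.1.1 p.1.2).eval (T p) := by
    intro p
    have := hT3 p
    simp only [eval_sub, eval_mul, eval_C] at this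
    linarith
  refine ⟨R, T, hR, hT0, ?_, hT4⟩
  rintro ⟨b, i⟩ ⟨c, j⟩ hbc
  have hij : i = j := by
    by_contra hne
    rcases lt_or_gt_of_ne hne with h | h
    · have h3 := hT2 (b, i)
      have h4 := hT1 (c, j)
      rw [hbc] at h3
      have h5 : mid ((i : ℕ) + 1) ≤ mid (j : ℕ) := by
        have h6 : (i : ℕ) + 1 ≤ (j : ℕ) := h
        unfold mid
        have h7 : (((i : ℕ) + 1 : ℕ) : ℝ) ≤ ((j : ℕ) : ℝ) := by exact_mod_cast h6
        linarith
      simp only at h3 h4
      linarith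
    · have h3 := hT2 (c, j)
      have h4 := hT1 (b, i)
      rw [hbc] at h4
      have h5 : mid ((j : ℕ) + 1) ≤ mid (i : ℕ) := by
        have h6 : (j : ℕ) + 1 ≤ (i : ℕ) := h
        unfold mid
        have h7 : (((j : ℕ) + 1 : ℕ) : ℝ) ≤ ((i : ℕ) : ℝ) := by exact_mod_cast h6
        linarith
      simp only at h3 h4
      linarith
  subst hij
  have h3 := hT4 (b, i)
  have h4 := hT4 (c, i)
  rw [← hbc] at h4
  simp only at h3 h4
  set x := T (b, i) with hx
  have hx0 : 0 < x := hT0 _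
  have h5 : (line b.1 b.2).eval x = (line c.1 c.2).eval x := by rw [← h3, ← h4]
  have hΦ : (Phi N).eval x ≠ 0 := by
    intro h6
    rw [h6, mul_zero] at h3
    exact (line_pos b.1 b.2 x hx0).ne' h3.symm
  rw [line_eval, line_eval] at h5
  by_cases hs : (b.2 : ℕ) = (c.2 : ℕ)
  · rw [hs] at h5
    have h6 : ((b.1 : ℕ) : ℝ) = ((c.1 : ℕ) : ℝ) := by linarith
    have h7 : (b.1 : ℕ) = (c.1 : ℕ) := by exact_mod_cast h6
    have h8 : b = c := Prod.ext (Fin.ext h7) (Fin.ext hs)
    rw [h8]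
  · exfalso
    have h6 : (((b.2 : ℕ) : ℝ) - ((c.2 : ℕ) : ℝ)) ≠ 0 := by
      intro h7
      apply hs
      have h8 : ((b.2 : ℕ) : ℝ) = ((c.2 : ℕ) : ℝ) := by linarith
      exact_mod_cast h8
    have h7 : x = cr b c := by
      simp only [cr]
      rw [eq_div_iff h6]
      linarith
    have h8 := h2 b c (h7 ▸ hΦ)
    rw [← h7, h3] at h8
    exact lt_irrefl _ h8

end Pool.Agent.H73.SOS
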