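import Pool.Agent.TH866.TauThree
import Pool.Agent.H73.SOS.Family

/-!
# The whole range of the parameters
-/

set_option autoImplicit false

namespace Pool.Agent.H73.SOS

open Polynomial Finset Pool.Agent.TH866.TauGlue

/-- The family in one parameter. -/
theorem family₁ (N : ℕ) (hN : 1 ≤ N) :
    ∃ F : Fin (16 * N ^ 3) → Fin 2 → ℝ[X], (∀ i j, (F i j).support.card ≤ 2 * N ^ 2) ∧
      8 * N ^ 4 * (N ^ 2 - 1) ≤ (∑ i, ∏ j, F i j).roots.toFinset.card := by
  classical
  obtain ⟨F, G, h1, h2, h3⟩ := family₄ N N (4 * N ^ 2) (2 * N) (2 * N) (8 * N ^ 2) hN hN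
    (by omega) (by
      intro a ha a' ha' l hl
      have h4 : a' * l ≤ (2 * N - 1) * (2 * N - 1) := Nat.mul_le_mul (by omega) (by omega)
      obtain ⟨M, rfl⟩ : ∃ M, N = M + 1 := ⟨N - 1, by omega⟩
      have h5 : 2 * (M + 1) - 1 = 2 * M + 1 := by omega
      rw [h5] at h4
      nlinarith)
  have e : Fin (16 * N ^ 3) ≃ Fin (2 * N) × Fin (8 * N ^ 2) :=
    Fintype.equivOfCardEq (by
      simp only [Fintype.card_fin, Fintype.card_prod]
      ring)
  refine ⟨fun i => ![F (e i), G (e i)], ?_, ?_⟩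
  · intro i j
    fin_cases j
    · simp only [Fin.zero_eta, Matrix.cons_val_zero]
      refine (h1 _).trans ?_
      nlinarith
    · simp only [Fin.mk_one, Matrix.cons_val_one, Matrix.cons_val_fin_one]
      refine (h2 _).trans (le_of_eq ?_)
      ring
  · have h4 : ∑ i, ∏ j, (![F (e i), G (e i)] : Fin 2 → ℝ[X]) j = ∑ z, F z * G z := by
      rw [← e.sum_comp (fun z => F z * G z)]
      apply Finset.sum_congr rfl
      intro i _
      rw [Fin.prod_univ_two]
      simp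
    rw [h4]
    refine le_trans (le_of_eq ?_) h3
    have h5 : N * N - 1 = N ^ 2 - 1 := by rw [sq]
    rw [h5]
    ring

lemma base_family (N : ℕ) (hN : 2 ≤ N) : Good (16 * N ^ 3 + 1) (2 * N ^ 2) (2 * N ^ 6) := by
  obtain ⟨F, hF, hroots⟩ := family₁ N (by omega)
  obtain ⟨M, rfl⟩ : ∃ M, N = M + 2 := ⟨N - 2, by omega⟩
  have h1 : (M + 2) ^ 2 - 1 = M ^ 2 + 4 * M + 3 := by
    have : (M + 2) ^ 2 = M ^ 2 + 4 * M + 4 := by ring
    omega
  have h2 : 6 * (M + 2) ^ 6 ≤ 8 * (M + 2) ^ 4 * ((M + 2) ^ 2 - 1) := by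
    rw [h1]
    calc 6 * (M + 2) ^ 6 = (M + 2) ^ 4 * (6 * (M + 2) ^ 2) := by ring
      _ ≤ (M + 2) ^ 4 * (8 * (M ^ 2 + 4 * M + 3)) := Nat.mul_le_mul_left _ (by nlinarith)
      _ = _ := by ring
  have h3 : 1 ≤ (M + 2) ^ 6 := Nat.one_le_pow _ _ (by omega)
  apply base _ _ _ F
  · have : 1 ≤ (M + 2) ^ 2 := Nat.one_le_pow _ _ (by omega)
    omega
  · exact hF
  · intro h0
    rw [h0, roots_zero, Multiset.toFinset_zero, Finset.card_empty] at hroots
    omega
  · omega

/-- **All ranges, two factors.** -/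
theorem range_two (k t q : ℕ) (ht : 2 ≤ t) (h3 : q ^ 3 ≤ k) (h2 : q ^ 2 ≤ t) :
    ∃ r, Good k t r ∧ k * t * q ≤ 272 * r := by
  by_cases hs : q ≤ 5
  · refine ⟨t / 2 * (k * 1), ?_, ?_⟩
    · exact ((base_small.glue_k k).glue_t (t / 2)).mono (by simp)
        (Nat.div_mul_le_self t 2) le_rfl
    · have h1 : t ≤ 3 * (t / 2) := by omega
      calc k * t * q ≤ k * (3 * (t / 2)) * 5 := by gcongr
        _ = 15 * (t / 2 * (k * 1)) := by ring
        _ ≤ 272 * (t / 2 * (k * 1)) := by gcongr; norm_num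
  · push Not at hs
    set N := q / 3 with hN
    have hN2 : 2 ≤ N := by omega
    have hq3 : 3 * N ≤ q := by omega
    have hq4 : q ≤ 4 * N := by omega
    have hk0 : 16 * N ^ 3 + 1 ≤ k := by
      have h4 : (3 * N) ^ 3 ≤ q ^ 3 := Nat.pow_le_pow_left hq3 3
      have h5 : (3 * N) ^ 3 = 27 * N ^ 3 := by ring
      have h6 : 1 ≤ N ^ 3 := Nat.one_le_pow _ _ (by omega)
      omega
    have ht0 : 2 * N ^ 2 ≤ t := by
      have h4 : (3 * N) ^ 2 ≤ q ^ 2 := Nat.pow_le_pow_left hq3 2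
      have h5 : (3 * N) ^ 2 = 9 * N ^ 2 := by ring
      omega
    set K0 := 16 * N ^ 3 + 1 with hK0
    set T0 := 2 * N ^ 2 with hT0
    have hT0pos : 0 < T0 := by positivity
    have hK0pos : 0 < K0 := by positivity
    have hg := ((base_family N hN2).glue_k (k / K0)).glue_t (t / T0)
    refine ⟨t / T0 * (k / K0 * (2 * N ^ 6)), hg.mono (Nat.div_mul_le_self _ _)
      (Nat.div_mul_le_self _ _) le_rfl, ?_⟩
    have hkk : k ≤ 2 * (K0 * (k / K0)) := by
      have h1 : 1 ≤ k / K0 := (Nat.one_le_div_iff hK0pos).mpr hk0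
      have h2 := Nat.div_add_mod k K0
      have h3 := Nat.mod_lt k hK0pos
      have h4 : K0 * 1 ≤ K0 * (k / K0) := Nat.mul_le_mul_left _ h1
      omega
    have htt : t ≤ 2 * (T0 * (t / T0)) := by
      have h1 : 1 ≤ t / T0 := (Nat.one_le_div_iff hT0pos).mpr ht0
      have h2 := Nat.div_add_mod t T0
      have h3 := Nat.mod_lt t hT0pos
      have h4 : T0 * 1 ≤ T0 * (t / T0) := Nat.mul_le_mul_left _ h1
      omega
    have hK0' : K0 ≤ 17 * N ^ 3 := by
      have : 1 ≤ N ^ 3 := Nat.one_le_pow _ _ (by omega)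
      omega
    calc k * t * q ≤ (2 * (K0 * (k / K0))) * (2 * (T0 * (t / T0))) * (4 * N) := by gcongr
      _ ≤ (2 * (17 * N ^ 3 * (k / K0))) * (2 * (T0 * (t / T0))) * (4 * N) := by gcongr
      _ = 272 * (t / T0 * (k / K0 * (2 * N ^ 6))) := by
          rw [hT0]
          ring

lemma half (q A B : ℕ) (hA : q ^ 3 ≤ 3 * A) (hB : q ^ 2 ≤ 3 * B) (hA1 : 1 ≤ A)
    (hB1 : 1 ≤ B) : ∃ q' : ℕ, 1 ≤ q' ∧ q ≤ 3 * q' ∧ q' ^ 3 ≤ A ∧ q' ^ 2 ≤ B := by
  by_cases h : q ≤ 3
  · exact ⟨1, le_rfl, by omega, by simpa using hA1, by simpa using hB1⟩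
  · refine ⟨q / 2, by omega, by omega, ?_, ?_⟩
    · have h1 : (2 * (q / 2)) ^ 3 ≤ q ^ 3 := Nat.pow_le_pow_left (by omega) 3
      have h2 : (2 * (q / 2)) ^ 3 = 8 * (q / 2) ^ 3 := by ring
      omega
    · have h1 : (2 * (q / 2)) ^ 2 ≤ q ^ 2 := Nat.pow_le_pow_left (by omega) 2
      have h2 : (2 * (q / 2)) ^ 2 = 4 * (q / 2) ^ 2 := by ring
      omega

/-- Squares. -/
theorem squares (s T q : ℕ) (hs : 2 ≤ s) (hT : 4 ≤ T) (h3 : q ^ 3 ≤ s) (h2 : q ^ 2 ≤ T) :
    ∃ (c : Fin s → ℝ) (f : Fin s → ℝ[X]), (∀ i, (f i).support.card ≤ T) ∧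
      (∑ i, C (c i) * f i ^ 2) ≠ 0 ∧
      s * T * q ≤ 7344 * (∑ i, C (c i) * f i ^ 2).roots.toFinset.card := by
  classical
  obtain ⟨q', hq1, hqq, hq3, hq2⟩ := half q (s / 2) (T / 2)
    (by omega) (by omega) (by omega) (by omega)
  obtain ⟨r, hgood, hr⟩ := range_two (s / 2) (T / 2) q' (by omega) hq3 hq2
  have hr1 : 1 ≤ r := by
    by_contra h0
    have h0 : r = 0 := by omega
    rw [h0, mul_zero] at hr
    have h1 : 0 < s / 2 * (T / 2) * q' := by
      have : 0 < s / 2 := by omega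
      have : 0 < T / 2 := by omega
      positivity
    omega
  obtain ⟨F, h1, h2, h3⟩ := hgood.rep hr1
  -- the squares
  have hprod : ∀ i, ∏ j, F i j = F i 0 * F i 1 := fun i => Fin.prod_univ_two _
  let c0 : Fin (s / 2) ⊕ Fin (s / 2) → ℝ := Sum.elim (fun _ => 1 / 4) (fun _ => -(1 / 4))
  let f0 : Fin (s / 2) ⊕ Fin (s / 2) → ℝ[X] :=
    Sum.elim (fun i => F i 0 + F i 1) (fun i => F i 0 - F i 1)
  obtain ⟨e⟩ : Nonempty (Fin (s / 2) ⊕ Fin (s / 2) ↪ Fin s) :=
    Function.Embedding.nonempty_of_card_le (by simp; omega)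
  have hsum : ∑ i, C (Function.extend e c0 0 i) * Function.extend e f0 0 i ^ 2 =
      ∑ i, ∏ j, F i j := by
    have hA : ∑ x, C (c0 x) * f0 x ^ 2 =
        ∑ i, C (Function.extend e c0 0 i) * Function.extend e f0 0 i ^ 2 := by
      apply Fintype.sum_of_injective e e.injective
      · intro i hi
        rw [Function.extend_apply' _ _ _ (by simpa using hi)]
        simp
      · intro i
        rw [e.injective.extend_apply, e.injective.extend_apply]
    rw [← hA, Fintype.sum_sum_type, ← Finset.sum_add_distrib]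
    apply Finset.sum_congr rfl
    intro i _
    rw [hprod]
    simp only [c0, f0, Sum.elim_inl, Sum.elim_inr]
    have hC : (C (-(1 / 4) : ℝ) : ℝ[X]) = - C (1 / 4) := by rw [C_neg]
    have hC4 : (C (1 / 4 : ℝ) : ℝ[X]) * 4 = 1 := by
      have : (4 : ℝ[X]) = C 4 := (map_ofNat C 4).symm
      rw [this, ← C_mul]
      norm_num
    rw [hC]
    linear_combination (F i 0 * F i 1) * hC4
  refine ⟨Function.extend e c0 0, Function.extend e f0 0, ?_, ?_, ?_⟩
  · intro i
    by_cases h : ∃ x, e x = i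
    · obtain ⟨x, rfl⟩ := h
      rw [e.injective.extend_apply]
      rcases x with x | x
      · have h5 : (F x 0 + F x 1).support.card ≤ (F x 0).support.card + (F x 1).support.card :=
          (Finset.card_le_card support_add).trans (Finset.card_union_le _ _)
        have h6 := h1 x 0
        have h7 := h1 x 1
        simp only [f0, Sum.elim_inl]
        omega
      · have h5 : (F x 0 - F x 1).support.card ≤ (F x 0).support.card + (F x 1).support.card := by
          rw [sub_eq_add_neg]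
          refine (Finset.card_le_card support_add).trans ((Finset.card_union_le _ _).trans ?_)
          rw [support_neg]
        have h6 := h1 x 0
        have h7 := h1 x 1
        simp only [f0, Sum.elim_inr]
        omega
    · rw [Function.extend_apply' _ _ _ h]
      simp
  · rw [hsum]
    exact h2
  · rw [hsum]
    have hs3 : s ≤ 3 * (s / 2) := by omega
    have hT3 : T ≤ 3 * (T / 2) := by omega
    calc s * T * q ≤ (3 * (s / 2)) * (3 * (T / 2)) * (3 * q') := by gcongr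
      _ = 27 * (s / 2 * (T / 2) * q') := by ring
      _ ≤ 27 * (272 * r) := by gcongr
      _ = 7344 * r := by ring
      _ ≤ 7344 * (∑ i, ∏ j, F i j).roots.toFinset.card := by gcongr

/-- In terms of the support-sum. -/
theorem total (S : ℕ) (hS : 1 ≤ S) :
    ∃ (s : ℕ) (c : Fin s → ℝ) (f : Fin s → ℝ[X]), (∑ i, C (c i) * f i ^ 2) ≠ 0 ∧
      ∑ i, (f i).support.card ≤ S ∧
      S ^ 6 ≤ (470016 * (∑ i, C (c i) * f i ^ 2).roots.toFinset.card) ^ 5 := by
  classical
  by_cases hS32 : S < 32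
  · refine ⟨1, fun _ => 1, fun _ => X, ?_, ?_, ?_⟩
    · simp
    · have h1 : (X : ℝ[X]).support.card = 1 := by
        rw [support_X]
        simp
      simpa [h1] using hS
    · have h1 : (∑ _i : Fin 1, C (1 : ℝ) * X ^ 2 : ℝ[X]) = X ^ 2 := by simp
      rw [h1, roots_X_pow]
      have h2 : (2 • ({0} : Multiset ℝ)).toFinset.card = 1 := by
        rw [Multiset.toFinset_nsmul _ _ (by norm_num)]
        simp
      rw [h2, mul_one]
      calc S ^ 6 ≤ 32 ^ 6 := Nat.pow_le_pow_left hS32.le 6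
        _ ≤ 470016 ^ 5 := by norm_num
  · push Not at hS32
    -- the largest `q` with `q ^ 5 ≤ S`
    obtain ⟨q, hq1, hq2, hq3⟩ : ∃ q, 2 ≤ q ∧ q ^ 5 ≤ S ∧ S < (q + 1) ^ 5 := by
      let q := Nat.findGreatest (fun m => m ^ 5 ≤ S) S
      have h1 : q ^ 5 ≤ S := Nat.findGreatest_spec (P := fun m => m ^ 5 ≤ S) (Nat.zero_le S)
        (by simp)
      have h2 : 2 ≤ q := Nat.le_findGreatest (by omega) (by norm_num; exact hS32)
      refine ⟨q, h2, h1, ?_⟩
      by_contra hcon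
      push Not at hcon
      have h3 : q + 1 ≤ S := le_trans (Nat.le_self_pow (by norm_num) _) hcon
      have h4 : q + 1 ≤ q := Nat.le_findGreatest h3 hcon
      omega
    obtain ⟨c, f, h1, h2, h3⟩ := squares (q ^ 3) (q ^ 2) q
      (by calc 2 ≤ 2 ^ 3 := by norm_num
            _ ≤ q ^ 3 := Nat.pow_le_pow_left hq1 3)
      (by calc 4 = 2 ^ 2 := by norm_num
            _ ≤ q ^ 2 := Nat.pow_le_pow_left hq1 2) le_rfl le_rfl
    refine ⟨q ^ 3, c, f, h2, ?_, ?_⟩
    · calc ∑ i, (f i).support.card ≤ ∑ _i : Fin (q ^ 3), q ^ 2 :=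
            Finset.sum_le_sum fun i _ => h1 i
        _ = q ^ 5 := by
            rw [Finset.sum_const, Finset.card_univ, Fintype.card_fin, smul_eq_mul]
            ring
        _ ≤ S := hq2
    · set R := (∑ i, C (c i) * f i ^ 2).roots.toFinset.card
      have h4 : q ^ 6 ≤ 7344 * R := by
        calc q ^ 6 = q ^ 3 * q ^ 2 * q := by ring
          _ ≤ 7344 * R := h3
      calc S ^ 6 ≤ ((q + 1) ^ 5) ^ 6 := Nat.pow_le_pow_left hq3.le 6
        _ ≤ ((2 * q) ^ 5) ^ 6 := Nat.pow_le_pow_left (Nat.pow_le_pow_left (by omega) 5) 6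
        _ = (64 * q ^ 6) ^ 5 := by ring
        _ ≤ (64 * (7344 * R)) ^ 5 := Nat.pow_le_pow_left (Nat.mul_le_mul_left _ h4) 5
        _ = (470016 * R) ^ 5 := by ring

end Pool.Agent.H73.SOS
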